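import Mathlib
import Pool.Agent.TH748.COH.Main
import Pool.Agent.TH748.COH.Model

/-!
Over `RCA*₀` the cohesiveness principle `COH` proves `Σ⁰₁` induction; already its restriction to
finite sequences of sets does. Hence `RCA*₀ + COH` is the same theory as `RCA₀ + COH`, and it is
not `Π¹₁`-conservative over `RCA*₀`.

Proof of the first part. Suppose that `Σ⁰₁` induction fails. Then there are a bounded cut `J`
without greatest element and a nondecreasing function `j` of the structure from the numbers onto
a cofinal subset of `J`, with `J < c`. Let `R_s`, for `s < 2 ^ c`, be the set of all `x` such that
bit number `j(x)` of `s` (bit number `0` is the most significant one) is `1`, and let `C` be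
cohesive for this finite sequence. The set `D` of all `j(x)`, `x` in `C`, is cofinal in `J`, and
there is an `s < 2 ^ c` whose bit number changes, within `J`, exactly at the members of `D`: the
initial segments of `s` below `j(x)` are determined at stage `x` and give nested intervals of
numbers `s`; if these had no common point, then the set of those `s` which are below one of the
intervals would be `Δ⁰₁`, contain `0` and be closed under successor. For this `s` both
`C ∩ R_s` and `C \ R_s` are unbounded.

For the second part, the elements of an ultrapower of the natural numbers which are below one of
the finitely iterated powers of two of a fixed nonstandard number, with the traces of the internal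
sets, are a model of `RCA*₀` in which the instance of `Σ⁰₁` induction for the formula
`∃ k, (k, n) ∈ X`, a `Π¹₁` sentence, fails.
-/

namespace Pool.Agent.Results.MP_a3848c_lc.CohImpliesISigma1

open Pool.Agent.Helper617.RM Pool.Agent.TH748.COH

/-- Every model of `RCA*₀` in which every finite sequence of sets has an infinite cohesive set is
a model of `Σ⁰₁` induction, and `RCA*₀ + COH` is not `Π¹₁`-conservative over `RCA*₀`. -/
theorem result :
    (∀ N : L2Structure.{0}, IsModelRCA0star N → FiniteCOH N → ISigma01 N) ∧
      ¬ Pi11Conservative (fun N => IsModelRCA0star N ∧ Pool.Agent.Helper617.CR.COH N)
        (fun N => IsModelRCA0star N) := by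
  refine ⟨fun N hN h => isigma1_of_finiteCOH h, fun h => ?_⟩
  refine not_pi11True (h indForm (fun N hN => ?_) NN nn_model)
  obtain ⟨h1, h2⟩ := hN
  exact indForm_of_isigma N (isigma1_of_finiteCOH (finiteCOH_of_coh h2))

end Pool.Agent.Results.MP_a3848c_lc.CohImpliesISigma1
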